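import Mathlib
import Pool.Agent.K3h27.PP.Stm

/-!
# Brick COPY
-/

set_option autoImplicit false

open Finset

namespace Pool.Agent.K3h51.PP

open Pool.Agent.K3h27.PP SimpleGraph

/-- an injective self-map of the path with six vertices that preserves adjacency -/
theorem path6_aut (e : Fin 6 → Fin 6) (he : Function.Injective e)
    (hadj : ∀ i j : Fin 6, (i : ℕ) + 1 = j →
      ((e i : ℕ) + 1 = e j ∨ (e j : ℕ) + 1 = e i)) :
    (∀ i, e i = i) ∨ (∀ i, e i = Fin.rev i) := by
  have h01 := hadj 0 1 rfl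
  have h12 := hadj 1 2 rfl
  have h23 := hadj 2 3 rfl
  have h34 := hadj 3 4 rfl
  have h45 := hadj 4 5 rfl
  have n02 : (e 0 : ℕ) ≠ e 2 := fun h => absurd (he (Fin.ext h)) (by decide)
  have n13 : (e 1 : ℕ) ≠ e 3 := fun h => absurd (he (Fin.ext h)) (by decide)
  have n24 : (e 2 : ℕ) ≠ e 4 := fun h => absurd (he (Fin.ext h)) (by decide)
  have n35 : (e 3 : ℕ) ≠ e 5 := fun h => absurd (he (Fin.ext h)) (by decide)
  have b0 := (e 0).2
  have b1 := (e 1).2
  have b2 := (e 2).2
  have b3 := (e 3).2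
  have b4 := (e 4).2
  have b5 := (e 5).2
  rcases h01 with h01 | h01
  · left
    have : (e 0 : ℕ) = 0 ∧ (e 1 : ℕ) = 1 ∧ (e 2 : ℕ) = 2 ∧ (e 3 : ℕ) = 3 ∧ (e 4 : ℕ) = 4 ∧
        (e 5 : ℕ) = 5 := by omega
    obtain ⟨q0, q1, q2, q3, q4, q5⟩ := this
    intro i
    fin_cases i
    · exact Fin.ext q0
    · exact Fin.ext q1
    · exact Fin.ext q2
    · exact Fin.ext q3
    · exact Fin.ext q4
    · exact Fin.ext q5
  · right
    have : (e 0 : ℕ) = 5 ∧ (e 1 : ℕ) = 4 ∧ (e 2 : ℕ) = 3 ∧ (e 3 : ℕ) = 2 ∧ (e 4 : ℕ) = 1 ∧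
        (e 5 : ℕ) = 0 := by omega
    obtain ⟨q0, q1, q2, q3, q4, q5⟩ := this
    intro i
    fin_cases i
    · exact Fin.ext q0
    · exact Fin.ext q1
    · exact Fin.ext q2
    · exact Fin.ext q3
    · exact Fin.ext q4
    · exact Fin.ext q5

theorem mem_P6 {V : Type} {G : SimpleGraph V} {W : Finset V} {a b c d e f : V} :
    (a, b, c, d, e, f) ∈ P6 G W ↔ (a ∈ W ∧ b ∈ W ∧ c ∈ W ∧ d ∈ W ∧ e ∈ W ∧ f ∈ W) ∧
      [a, b, c, d, e, f].Nodup ∧ G.Adj a b ∧ G.Adj b c ∧ G.Adj c d ∧ G.Adj d e ∧ G.Adj e f := by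
  simp only [P6, Finset.mem_filter, Finset.mem_product]

variable {n : ℕ} {G : SimpleGraph (Fin n)}

/-- the reversed copy -/
def revCopy (f : (pathGraph 6).Copy G) : (pathGraph 6).Copy G :=
  ⟨⟨fun i => f (Fin.rev i), by
    intro i j hij
    refine f.toHom.map_adj ?_
    rw [pathGraph_adj] at hij ⊢
    rw [Fin.val_rev, Fin.val_rev]
    have := i.2
    have := j.2
    omega⟩, by
    intro i j hij
    exact Fin.rev_injective (f.injective hij)⟩

theorem revCopy_apply (f : (pathGraph 6).Copy G) (i : Fin 6) : revCopy f i = f (Fin.rev i) := rfl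

theorem revCopy_ne (f : (pathGraph 6).Copy G) : revCopy f ≠ f := by
  intro h
  have h0 : revCopy f 0 = f 0 := by rw [h]
  rw [revCopy_apply] at h0
  exact absurd (f.injective h0) (by decide)

theorem toSubgraph_verts (f : (pathGraph 6).Copy G) : f.toSubgraph.verts = Set.range f := by
  ext x
  constructor
  · rintro ⟨y, -, hy⟩
    exact ⟨y, hy⟩
  · rintro ⟨y, hy⟩
    exact ⟨y, trivial, hy⟩

theorem toSubgraph_adj (f : (pathGraph 6).Copy G) (x y : Fin n) :
    f.toSubgraph.Adj x y ↔ ∃ i j, (pathGraph 6).Adj i j ∧ f i = x ∧ f j = y := by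
  constructor
  · rintro ⟨i, j, hij, hi, hj⟩
    exact ⟨i, j, hij, hi, hj⟩
  · rintro ⟨i, j, hij, hi, hj⟩
    exact ⟨i, j, hij, hi, hj⟩

theorem revCopy_toSubgraph (f : (pathGraph 6).Copy G) :
    (revCopy f).toSubgraph = f.toSubgraph := by
  have hadj : ∀ i j : Fin 6, (pathGraph 6).Adj i j → (pathGraph 6).Adj i.rev j.rev := by
    intro i j hij
    rw [pathGraph_adj] at hij ⊢
    rw [Fin.val_rev, Fin.val_rev]
    have := i.2
    have := j.2
    omega
  ext x y
  · rw [toSubgraph_verts, toSubgraph_verts]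
    constructor
    · rintro ⟨i, hi⟩; exact ⟨i.rev, hi⟩
    · rintro ⟨i, hi⟩; exact ⟨i.rev, by rw [revCopy_apply, Fin.rev_rev]; exact hi⟩
  · rw [toSubgraph_adj, toSubgraph_adj]
    constructor
    · rintro ⟨i, j, hij, hi, hj⟩
      exact ⟨i.rev, j.rev, hadj i j hij, hi, hj⟩
    · rintro ⟨i, j, hij, hi, hj⟩
      refine ⟨i.rev, j.rev, hadj i j hij, ?_, ?_⟩
      · rw [revCopy_apply, Fin.rev_rev]; exact hi
      · rw [revCopy_apply, Fin.rev_rev]; exact hj

theorem fibre (f g : (pathGraph 6).Copy G) (h : g.toSubgraph = f.toSubgraph) :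
    g = f ∨ g = revCopy f := by
  have hv : ∀ i, ∃ j, f j = g i := by
    intro i
    have : g i ∈ g.toSubgraph.verts := by rw [toSubgraph_verts]; exact ⟨i, rfl⟩
    rw [h, toSubgraph_verts] at this
    exact this
  choose e he using hv
  have hinj : Function.Injective e := by
    intro i j hij
    apply g.injective
    show g i = g j
    rw [← he i, ← he j, hij]
  have hadj : ∀ i j : Fin 6, (i : ℕ) + 1 = j →
      ((e i : ℕ) + 1 = e j ∨ (e j : ℕ) + 1 = e i) := by
    intro i j hij
    have h1 : g.toSubgraph.Adj (g i) (g j) := by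
      rw [toSubgraph_adj]
      exact ⟨i, j, by rw [pathGraph_adj]; exact Or.inl hij, rfl, rfl⟩
    rw [h, toSubgraph_adj] at h1
    obtain ⟨a, b, hab, ha, hb⟩ := h1
    rw [← he i] at ha
    rw [← he j] at hb
    have ha' := f.injective ha
    have hb' := f.injective hb
    subst ha' hb'
    rw [pathGraph_adj] at hab
    exact hab
  rcases path6_aut e hinj hadj with h1 | h1
  · left
    apply Copy.ext
    intro i
    rw [← he i, h1 i]
  · right
    apply Copy.ext
    intro i
    rw [← he i, h1 i, revCopy_apply]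

theorem t_COPY : S_COPY := by
  classical
  intro n G
  rw [copyCount_eq_card_image_copyToSubgraph]
  -- the tuples are the copies
  have h1 : (P6 G univ).card = (Finset.univ : Finset ((pathGraph 6).Copy G)).card := by
    symm
    refine Finset.card_bij (fun f _ => (f 0, f 1, f 2, f 3, f 4, f 5)) ?_ ?_ ?_
    · intro f _
      have hadj : ∀ i j : Fin 6, (i : ℕ) + 1 = j → G.Adj (f i) (f j) := by
        intro i j hij
        refine f.toHom.map_adj ?_
        rw [pathGraph_adj]
        exact Or.inl hij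
      have hnd : (List.map f (List.finRange 6)).Nodup :=
        List.Nodup.map f.injective (List.nodup_finRange 6)
      rw [mem_P6]
      exact ⟨by simp, hnd, hadj _ _ rfl, hadj _ _ rfl, hadj _ _ rfl, hadj _ _ rfl,
        hadj _ _ rfl⟩
    · intro f _ g _ hfg
      simp only [Prod.mk.injEq] at hfg
      obtain ⟨e0, e1, e2, e3, e4, e5⟩ := hfg
      apply Copy.ext
      intro i
      fin_cases i
      · exact e0
      · exact e1
      · exact e2
      · exact e3
      · exact e4
      · exact e5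
    · rintro ⟨a, b, c, d, e, f⟩ hp
      rw [mem_P6] at hp
      obtain ⟨-, hnd, p1, p2, p3, p4, p5⟩ := hp
      let φ : Fin 6 → Fin n := ![a, b, c, d, e, f]
      have hinj : Function.Injective φ := by
        have : List.Nodup (List.ofFn φ) := by simpa [φ, List.ofFn_succ] using hnd
        exact List.nodup_ofFn.1 this
      have key : ∀ i j : Fin 6, (i : ℕ) + 1 = j → G.Adj (φ i) (φ j) := by
        intro i j hij
        fin_cases i <;> fin_cases j <;>
          first
          | (exfalso; revert hij; decide)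
          | exact p1
          | exact p2
          | exact p3
          | exact p4
          | exact p5
      refine ⟨⟨⟨φ, ?_⟩, hinj⟩, Finset.mem_univ _, rfl⟩
      intro i j hij
      rw [pathGraph_adj] at hij
      rcases hij with hij | hij
      · exact key i j hij
      · exact (key j i hij).symm
  rw [h1, Finset.card_eq_sum_card_image (fun f : (pathGraph 6).Copy G => f.toSubgraph),
    mul_comm, ← smul_eq_mul, ← Finset.sum_const]
  refine Finset.sum_congr (by congr!) fun S hS => ?_
  rw [Finset.mem_image] at hS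
  obtain ⟨f, -, rfl⟩ := hS
  rw [Finset.card_eq_two]
  refine ⟨f, revCopy f, (revCopy_ne f).symm, ?_⟩
  ext g
  simp only [Finset.mem_filter, Finset.mem_univ, true_and, Finset.mem_insert,
    Finset.mem_singleton]
  constructor
  · exact fibre f g
  · rintro (rfl | rfl)
    · rfl
    · exact revCopy_toSubgraph f

end Pool.Agent.K3h51.PP
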