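import Mathlib
import Pool.Agent.K3h27.PP.Stm

/-!
# Bricks FREE and COPY
-/

set_option autoImplicit false

open Finset

namespace Pool.Agent.K3h51.PP

open Pool.Agent.K3h27.PP

/-- the homomorphism given by an 8-vertex path -/
theorem t_FREE : S_FREE := by
  intro n G
  constructor
  · rintro h ⟨f⟩
    have hadj : ∀ i j : Fin 8, (i : ℕ) + 1 = j → G.Adj (f i) (f j) := by
      intro i j hij
      refine f.toHom.map_adj ?_
      rw [SimpleGraph.pathGraph_adj]
      exact Or.inl hij
    refine h (f 0) (f 1) (f 2) (f 3) (f 4) (f 5) (f 6) (f 7) ?_ (hadj _ _ rfl) (hadj _ _ rfl)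
      (hadj _ _ rfl) (hadj _ _ rfl) (hadj _ _ rfl) (hadj _ _ rfl) (hadj _ _ rfl)
    have hnd : (List.map f (List.finRange 8)).Nodup :=
      List.Nodup.map f.injective (List.nodup_finRange 8)
    exact hnd
  · intro h a b c d e f g k hnd h1 h2 h3 h4 h5 h6 h7
    apply h
    let φ : Fin 8 → Fin n := ![a, b, c, d, e, f, g, k]
    have hinj : Function.Injective φ := by
      have : List.Nodup (List.ofFn φ) := by simpa [φ, List.ofFn_succ] using hnd
      exact List.nodup_ofFn.1 this
    refine ⟨⟨⟨φ, ?_⟩, hinj⟩⟩
    intro i j hij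
    rw [SimpleGraph.pathGraph_adj] at hij
    have key : ∀ i j : Fin 8, (i : ℕ) + 1 = j → G.Adj (φ i) (φ j) := by
      intro i j hij
      fin_cases i <;> fin_cases j <;>
        first
        | (exfalso; revert hij; decide)
        | exact h1
        | exact h2
        | exact h3
        | exact h4
        | exact h5
        | exact h6
        | exact h7
    rcases hij with hij | hij
    · exact key i j hij
    · exact (key j i hij).symm

end Pool.Agent.K3h51.PP
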