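import Mathlib
import Pool.Agent.K3h27.PP.Stm

/-!
# Brick NOC7
-/

set_option autoImplicit false

open Finset

namespace Pool.Agent.K3h51.PP

open Pool.Agent.K3h27.PP

theorem t_NOC7 : S_NOC7 := by
  classical
  intro V G hP W hW h8 a ha b hb c hc d hd e he f hf g hg hnd hab hbc hcd hde hef hfg hga
  have hAW : ({a, b, c, d, e, f, g} : Finset V) ⊆ W := by
    intro x hx
    simp only [Finset.mem_insert, Finset.mem_singleton] at hx
    rcases hx with rfl | rfl | rfl | rfl | rfl | rfl | rfl <;> assumption
  have hne : ({a, b, c, d, e, f, g} : Finset V) ≠ W := by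
    intro h
    have h7 : ({a, b, c, d, e, f, g} : Finset V).card ≤ 7 :=
      (Finset.card_insert_le _ _).trans (Nat.succ_le_succ Finset.card_le_six)
    rw [h] at h7
    omega
  obtain ⟨x, hx, y, hyW, hy, hxy⟩ := hW _ hAW ⟨a, by simp⟩ hne
  simp only [Finset.mem_insert, Finset.mem_singleton, not_or] at hx hy
  obtain ⟨ya, yb, yc, yd, ye, yf, yg⟩ := hy
  have sw : ∀ {p q : V}, p ≠ q → q ≠ p := fun h => h.symm
  rcases hx with rfl | rfl | rfl | rfl | rfl | rfl | rfl
  · refine hP b c d e f g x y ?_ hbc hcd hde hef hfg hga hxy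
    simp only [List.nodup_cons, List.mem_cons, List.not_mem_nil, not_or] at hnd ⊢
    grind
  · refine hP c d e f g a x y ?_ hcd hde hef hfg hga hab hxy
    simp only [List.nodup_cons, List.mem_cons, List.not_mem_nil, not_or] at hnd ⊢
    grind
  · refine hP d e f g a b x y ?_ hde hef hfg hga hab hbc hxy
    simp only [List.nodup_cons, List.mem_cons, List.not_mem_nil, not_or] at hnd ⊢
    grind
  · refine hP e f g a b c x y ?_ hef hfg hga hab hbc hcd hxy
    simp only [List.nodup_cons, List.mem_cons, List.not_mem_nil, not_or] at hnd ⊢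
    grind
  · refine hP f g a b c d x y ?_ hfg hga hab hbc hcd hde hxy
    simp only [List.nodup_cons, List.mem_cons, List.not_mem_nil, not_or] at hnd ⊢
    grind
  · refine hP g a b c d e x y ?_ hga hab hbc hcd hde hef hxy
    simp only [List.nodup_cons, List.mem_cons, List.not_mem_nil, not_or] at hnd ⊢
    grind
  · refine hP a b c d e f x y ?_ hab hbc hcd hde hef hfg hxy
    simp only [List.nodup_cons, List.mem_cons, List.not_mem_nil, not_or] at hnd ⊢
    grind

end Pool.Agent.K3h51.PP
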